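import Mathlib
import Pool.Agent.Lib.helper15.PosD

set_option autoImplicit false

namespace Pool.Agent.Results.MP_cf3d36_an.Positive

/-- Positive Miljutin theorem: for every uncountable compact metric space `K` there is an
isomorphism `T : C(K) → C[0,1]` with `T ≥ 0`, and there is one with `T⁻¹ ≥ 0`. -/
theorem result (K : Type*) [MetricSpace K] [CompactSpace K] [Uncountable K] :
    (∃ T : C(K, ℝ) ≃L[ℝ] C(unitInterval, ℝ),
      ∀ f : C(K, ℝ), (∀ x, 0 ≤ f x) → ∀ y, 0 ≤ T f y) ∧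
    (∃ T : C(K, ℝ) ≃L[ℝ] C(unitInterval, ℝ),
      ∀ g : C(unitInterval, ℝ), (∀ y, 0 ≤ g y) → ∀ x, 0 ≤ T.symm g x) := by
  obtain ⟨A, hA⟩ := Pool.Agent.Lib.helper15.PosD.XC K
  obtain ⟨B, hB⟩ := Pool.Agent.Lib.helper15.PosD.CX K
  obtain ⟨C, hC⟩ := Pool.Agent.Lib.helper15.PosC.CD
  obtain ⟨D, hD⟩ := Pool.Agent.Lib.helper15.PosC.DC
  exact ⟨⟨A.trans C, fun f hf => hC _ (hA f hf)⟩,
    ⟨(D.trans B).symm, fun g hg => hB _ (hD g hg)⟩⟩

end Pool.Agent.Results.MP_cf3d36_an.Positive
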